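import Pool.Agent.H137Z.T3.BMain

/-!
Turan's tetrahedron conjecture for the `K_4^3`-free 3-graphs that contain no induced copy of
either of two explicit 3-graphs on six points.
-/

namespace Pool.Agent.Results.MP_f1799f_co.ATwoInduced

open Pool.Agent.H137Z.T3 Finset

/-- a `K_4^3`-free 3-graph with six points and thirteen edges -/
def F1 : Finset (Finset (Fin 6)) :=
  {{0, 1, 4}, {0, 1, 5}, {0, 2, 3}, {0, 2, 4}, {0, 2, 5}, {0, 3, 4}, {0, 3, 5}, {0, 4, 5},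
    {1, 2, 3}, {1, 2, 4}, {1, 2, 5}, {1, 3, 4}, {1, 3, 5}}

/-- a `K_4^3`-free 3-graph with six points and twelve edges -/
def F2 : Finset (Finset (Fin 6)) :=
  {{0, 1, 2}, {0, 1, 3}, {0, 2, 4}, {0, 2, 5}, {0, 3, 4}, {0, 3, 5}, {0, 4, 5},
    {1, 2, 3}, {1, 2, 4}, {1, 2, 5}, {1, 3, 4}, {1, 3, 5}}

theorem result :
    (∀ (n : ℕ) (H : Finset (Finset (Fin n))), (∀ e ∈ H, e.card = 3) →
      (∀ S : Finset (Fin n), S.card = 4 → ∃ t, t ⊆ S ∧ t.card = 3 ∧ t ∉ H) →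
      ¬ HasInduced F1 H → ¬ HasInduced F2 H → 54 * H.card ≤ 5 * n ^ 3) ∧
    (∀ ε : ℝ, 0 < ε → ∃ N : ℕ, ∀ n : ℕ, N ≤ n →
      (∀ H : Finset (Finset (Fin n)), (∀ e ∈ H, e.card = 3) →
        (∀ S : Finset (Fin n), S.card = 4 → ∃ t, t ⊆ S ∧ t.card = 3 ∧ t ∉ H) →
        ¬ HasInduced F1 H → ¬ HasInduced F2 H →
        (H.card : ℝ) ≤ (5 / 9 + ε) * ((n.choose 3 : ℕ) : ℝ)) ∧
      (∃ H : Finset (Finset (Fin n)), (∀ e ∈ H, e.card = 3) ∧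
        (∀ S : Finset (Fin n), S.card = 4 → ∃ t, t ⊆ S ∧ t.card = 3 ∧ t ∉ H) ∧
        ¬ HasInduced F1 H ∧ ¬ HasInduced F2 H ∧
        (5 / 9 - ε) * ((n.choose 3 : ℕ) : ℝ) ≤ (H.card : ℝ))) := by
  have up : ∀ (n : ℕ) (H : Finset (Finset (Fin n))), (∀ e ∈ H, e.card = 3) →
      (∀ S : Finset (Fin n), S.card = 4 → ∃ t, t ⊆ S ∧ t.card = 3 ∧ t ∉ H) →
      ¬ HasInduced F1 H → ¬ HasInduced F2 H → 54 * H.card ≤ 5 * n ^ 3 :=
    fun n H h3 hK a0 a1 => B.upper H h3 hK a0 a1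
  refine ⟨up, fun ε hε => ?_⟩
  obtain ⟨N1, h1⟩ := asym_lower ε hε
  obtain ⟨N2, h2⟩ := turC_asym ε hε
  refine ⟨max N1 N2, fun n hn => ⟨fun H h3 hK a0 a1 => ?_, ?_⟩⟩
  · have h := up n H h3 hK a0 a1
    have h' : (54 : ℝ) * (H.card : ℝ) ≤ 5 * (n : ℝ) ^ 3 := by exact_mod_cast h
    have h4 := h1 n ((le_max_left _ _).trans hn) (((n.choose 3 : ℕ) : ℝ) - (H.card : ℝ))
      (by linarith)
    linarith
  · obtain ⟨f1, f2⟩ := compl_facts (turC n) (turC_three n)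
    refine ⟨univ.powersetCard 3 \ turC n, f1, compl_free _ (turC_three n) (turC_cover n),
      fun h => turC_noInd n B.G0 B.t0 (ind_compl B.G0 B.K0 B.c0 _ h),
      fun h => turC_noInd n B.G1 B.t1 (ind_compl B.G1 B.K1 B.c1 _ h), ?_⟩
    have f3 : ((univ.powersetCard 3 \ turC n).card : ℝ) + ((turC n).card : ℝ)
        = ((n.choose 3 : ℕ) : ℝ) := by exact_mod_cast f2
    have h4 := h2 n ((le_max_right _ _).trans hn)
    linarith

end Pool.Agent.Results.MP_f1799f_co.ATwoInduced
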